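import Pool.Agent.T2H45.GG.Defs

/-!
# GG package BR (about 50 min): the bridging lemma

`A` is to the left and `B` to the right of the vertical line `x = x0`.  For all `1 ≤ i ≤ |A|`,
`1 ≤ j ≤ |B|` some line `y = m x + c` has exactly `i` points of `A` and exactly `j` points of `B`
strictly below it, and all other points of `A ∪ B` strictly above it.

Proof.  For `a : Fin n` put `f_a(m) = Y a - m (X a - x0)`; so the point `a` lies below the line
`y = m (x - x0) + c` iff `f_a(m) < c`.  (The line of the theorem is then `y = m x + (c - m x0)`.)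
Put `α(m) = min over S ∈ powersetCard i A of max_{a ∈ S} f_a(m)` (the `i`-th smallest value
of `f_a(m)`, `a ∈ A`), `β(m)` similarly with `j` and `B`.  Both are continuous
(`Continuous.finset_inf'`, `Continuous.finset_sup'`, or the `inf'`/`sup'` apply lemmas).
For `a ∈ A` the slope of `f_a` is `x0 - X a > 0`, for `b ∈ B` it is negative; so for `m` very
negative all `f_a(m)` (`a ∈ A`) are smaller than all `f_b(m)` (`b ∈ B`), hence `α(m) < β(m)`,
and for `m` very large `α(m) > β(m)`.  By the intermediate value theorem
`α(m) = β(m) = c0` for some `m`.  From the definition of `α` as a min-max: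
`#{a ∈ A | f_a(m) ≤ c0} ≥ i` and `#{a ∈ A | f_a(m) < c0} ≤ i - 1`; similarly for `B` and `j`.
Hence some `a ∈ A` and some `b ∈ B` have `f = c0`; by general position there is no third point
with `f = c0` (it would be on the line through `a` and `b`), so
`#{a ∈ A | f_a(m) ≤ c0} = i` and `#{b ∈ B | f_b(m) ≤ c0} = j` exactly.
Now move `c0` up a little to `c` (less than all the finitely many values `f_v(m) > c0`).
-/

namespace GG

open Finset

theorem bridging {n : ℕ} (X Y : Fin n → ℝ) (hgp : GP X Y) (A B : Finset (Fin n)) (x0 : ℝ)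
    (hA : ∀ v ∈ A, X v < x0) (hB : ∀ v ∈ B, x0 < X v) (i j : ℕ)
    (hi : 1 ≤ i) (hiA : i ≤ A.card) (hj : 1 ≤ j) (hjB : j ≤ B.card) :
    ∃ m c : ℝ, (A.filter fun v => Y v < m * X v + c).card = i ∧
      (B.filter fun v => Y v < m * X v + c).card = j ∧
      (∀ v ∈ A, Y v ≠ m * X v + c) ∧ (∀ v ∈ B, Y v ≠ m * X v + c) := by
  sorry

end GG
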