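import Pool.Agent.T2H45.GG.CNTD

/-!
# GG package CNT1 (about 45 min): number of edges of the extremal graph (pure combinatorics)

Points `0, ..., n-1` on a cycle, `2 d + 3 ≤ n`, `r ≤ d`, `N = r n / (d + 1)` (floor).  Edges: all
chords `s(x, x + j mod n)` with `x < n`, `1 ≤ j ≤ d`, and those with `j = d + 1` whose start `x < n`
satisfies `x N / n < (x + 1) N / n` (floors), i.e. `Rr n N x`.

* `card_chords` : there are exactly `d n + N` edges: the map `(x, j) ↦ s(x, (x + j) % n)` is
  injective on `x < n`, `1 ≤ j ≤ d + 1` because `2 (d + 1) < n`; and `#{x < n | Rr x} = N` because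
  `(x + 1) N / n - x N / n ∈ {0, 1}` (as `N ≤ n`) telescopes to `N`.
(checked numerically for small n, d, r)
-/

namespace GG

open Finset

theorem not_isDiag_chords (n d r : ℕ) [NeZero n] (hn : 2 * d + 3 ≤ n) (e : Sym2 (Fin n))
    (he : e ∈ chords n d r) : ¬ e.IsDiag := by
  sorry

theorem card_chords (n d r : ℕ) [NeZero n] (hr : r ≤ d) (hn : 2 * d + 3 ≤ n) :
    (chords n d r).card = d * n + r * n / (d + 1) := by
  sorry

end GG
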