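import Pool.Agent.T2H45.GG.CNTD

/-!
# GG package CNT2 (about 60 min): cuts of the extremal graph (pure combinatorics)

For every interval `[l, m)` at most `d (d + 1) + 2 r` edges have exactly one end in `[l, m)`.
Proof: walk from `x` to `x + j` (mod `n`) in `j` unit steps; membership in `[l, m)` changes only in
the step into `l` (from `l - 1`, mod `n`) or in the step into `m` (mod `n`; if `m ≥ n` take the step
into `0`; if `l ≥ n` or `m ≤ l` there is nothing to count); so the chord passes one of these two
steps.  The number of chords passing a given step (into `s`) is at most `d (d + 1) / 2 + r`: for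
each `j ≤ d` the `j` starts `s - 1, ..., s - j` (mod `n`), and for `j = d + 1` the starts
`x ∈ {s - 1, ..., s - d - 1}` (mod `n`) with `Rr n N x`; since `F x = x N / n` satisfies
`F (x + n) = F x + N`, the predicate `Rr n N` is `n`-periodic and the number of these is
`F (y + d + 1) - F y ≤ r` for a suitable `y` (because `(d + 1) N ≤ r n`:
`F (y + d + 1) ≤ (y N + r n) / n = F y + r`).
(the edge set is `chords n d r` = image of the index set, so `card ≤` is enough; the statement was
checked numerically for small n, d, r, l, m)
-/

namespace GG

open Finset

theorem cut_chords (n d r : ℕ) [NeZero n] (hr : r ≤ d) (hn : 2 * d + 3 ≤ n) (l m : ℕ) :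
    ((chords n d r).filter fun e => ∃ u v : Fin n, e = s(u, v) ∧ (l ≤ u.val ∧ u.val < m) ∧
      ¬ (l ≤ v.val ∧ v.val < m)).card ≤ d * (d + 1) + 2 * r := by
  sorry

end GG
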