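import Pool.Agent.T2H45.GG.Defs

/-! # GG: definitions for the packages CNT1, CNT2 (chords of a cycle) -/

namespace GG

open Finset

/-- the start `x` of a chord of length `d + 1` is used -/
def Rr (n N x : ℕ) : Prop := x * N / n < (x + 1) * N / n

instance (n N x : ℕ) : Decidable (Rr n N x) := by unfold Rr; infer_instance

/-- index set of the chords -/
def idx (n d r : ℕ) : Finset (ℕ × ℕ) :=
  (range n ×ˢ Icc 1 d) ∪ ((range n).filter fun x => Rr n (r * n / (d + 1)) x) ×ˢ {d + 1}

/-- the chord with start `x` and length `j` -/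
def chord (n : ℕ) [NeZero n] (xj : ℕ × ℕ) : Sym2 (Fin n) :=
  s(Fin.ofNat n xj.1, Fin.ofNat n (xj.1 + xj.2))

/-- the edge set of the extremal graph -/
def chords (n d r : ℕ) [NeZero n] : Finset (Sym2 (Fin n)) := (idx n d r).image (chord n)

end GG
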