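import Pool.Agent.T2H45.GG.Defs

/-!
# GG package DIR (about 40 min): linear changes of coordinates, and cutting off `h` points

* `gp_lin`, `dist_lin`, `cutLe_lin` : general position, distinctness and the cut condition are
  preserved by `X' = p X + q Y`, `Y' = -q X + p Y` (determinant `p² + q² ≠ 0`; for `CutLe` no
  condition is needed, the line `α X' + β Y' = γ` is the line
  `(α p - β q) X + (α q + β p) Y = γ`).
* `exists_cut` : for distinct points and `h ≤ n` there are `p, q` and `x0` such that exactly `h`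
  points have `p X v + q Y v < x0` and the others have `x0 < p X v + q Y v`.
  Proof: take `p = 1` and `q` outside the finitely many values for which
  `X i + q Y i = X j + q Y j` for some `i ≠ j`; then `v ↦ X v + q Y v` is injective; the image of
  `univ` is a finset of `n` reals; take `x0` between the `h`-th and the `(h+1)`-st
  (e.g. induction on `h`, or `Finset.orderEmbOfFin`).
-/

namespace GG

open Finset

theorem gp_lin {n : ℕ} {X Y : Fin n → ℝ} (h : GP X Y) (p q : ℝ) (hpq : p ≠ 0 ∨ q ≠ 0) :
    GP (fun v => p * X v + q * Y v) (fun v => -q * X v + p * Y v) := by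
  sorry

theorem dist_lin {n : ℕ} {X Y : Fin n → ℝ} (h : Dist X Y) (p q : ℝ) (hpq : p ≠ 0 ∨ q ≠ 0) :
    Dist (fun v => p * X v + q * Y v) (fun v => -q * X v + p * Y v) := by
  sorry

theorem cutLe_lin {n : ℕ} {X Y : Fin n → ℝ} {w : Fin n → Fin n → ℕ} {t : ℕ}
    (h : CutLe X Y w t) (p q : ℝ) :
    CutLe (fun v => p * X v + q * Y v) (fun v => -q * X v + p * Y v) w t := by
  sorry

theorem exists_cut {n : ℕ} {X Y : Fin n → ℝ} (hd : Dist X Y) (h : ℕ) (hh : h ≤ n) :
    ∃ p q x0 : ℝ, (p ≠ 0 ∨ q ≠ 0) ∧
      (univ.filter fun v => p * X v + q * Y v < x0).card = h ∧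
      ∀ v, p * X v + q * Y v ≠ x0 := by
  sorry

end GG
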