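import Mathlib

/-!
# Project GG (MP_b5bf4a_co): edges of a geometric graph forced to meet one line

Working definitions.  `X v, Y v` are the coordinates of the point number `v : Fin n`,
`w u v = 1` if `uv` is an edge and `0` otherwise (symmetric, zero on the diagonal).
-/

namespace GG

open Finset

/-- General position: no three collinear. -/
def GP {n : ℕ} (X Y : Fin n → ℝ) : Prop :=
  ∀ i j k : Fin n, i ≠ j → i ≠ k → j ≠ k →
    (X j - X i) * (Y k - Y i) - (X k - X i) * (Y j - Y i) ≠ 0

/-- The points are distinct. -/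
def Dist {n : ℕ} (X Y : Fin n → ℝ) : Prop :=
  ∀ i j : Fin n, i ≠ j → X i ≠ X j ∨ Y i ≠ Y j

/-- Number of (ordered) pairs in `S × T`, weighted by `w`. -/
def ee {n : ℕ} (w : Fin n → Fin n → ℕ) (S T : Finset (Fin n)) : ℕ := ∑ u ∈ S, ∑ v ∈ T, w u v

/-- `w` is the adjacency function of a simple graph. -/
structure IsAdj {n : ℕ} (w : Fin n → Fin n → ℕ) : Prop where
  symm : ∀ u v, w u v = w v u
  le_one : ∀ u v, w u v ≤ 1
  loopless : ∀ u, w u u = 0

/-- Points strictly on the negative side of the line `α x + β y = γ`. -/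
noncomputable def neg {n : ℕ} (X Y : Fin n → ℝ) (α β γ : ℝ) : Finset (Fin n) :=
  univ.filter fun v => α * X v + β * Y v < γ

/-- Points strictly on the positive side of the line `α x + β y = γ`. -/
noncomputable def pos {n : ℕ} (X Y : Fin n → ℝ) (α β γ : ℝ) : Finset (Fin n) :=
  univ.filter fun v => γ < α * X v + β * Y v

/-- Every line separates at most `t` adjacent pairs. -/
def CutLe {n : ℕ} (X Y : Fin n → ℝ) (w : Fin n → Fin n → ℕ) (t : ℕ) : Prop :=
  ∀ α β γ : ℝ, ee w (neg X Y α β γ) (pos X Y α β γ) ≤ t

/-- The `i`-th block size when `n` points are divided into `m` blocks as evenly as possible,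
`i = 0, ..., m - 1`. -/
def sz (n m i : ℕ) : ℕ := (n + i) / m

/-- Sum of `a (a - 1)` over the `m` balanced block sizes (twice the number of pairs in blocks). -/
def bal (n m : ℕ) : ℕ := ∑ i ∈ range m, sz n m i * (sz n m i - 1)

end GG
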