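import Pool.Agent.T2H45.GG.Defs

/-!
# GG package LINE (about 40 min): a line and points on a parabola

The points `(i, i²)`, `i = 0, 1, ...`, are in general position, and for every line there is an
interval `[l, r)` of indices such that the line meets the open segment between the points `i ≠ j`
only if exactly one of `i`, `j` is in `[l, r)`.

Proof.  Put `q(x) = a x + b x² - c`.  If the line `a z₁ + b z₂ = c` meets the open segment of the
points `i`, `j` then `(1 - s) q(i) + s q(j) = 0` for some `s ∈ (0, 1)`, so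
`q(i) q(j) < 0` or `q(i) = q(j) = 0`.  Replacing `(a, b, c)` by its negative we may assume `b > 0`,
or `b = 0` and `a > 0`.
`b = 0`, `a > 0`: take `l = 0`, `r = ⌈c / a⌉₊` (`i < r ↔ i < c / a ↔ q(i) < 0`).
`b > 0`: if `q ≥ 0` at all natural numbers take `l = r = 0` when there is no negative value:
careful with `q(i) = q(j) = 0`, `i ≠ j`: so distinguish by the discriminant `a² + 4 b c`:
if it is `≤ 0` then `q ≥ 0` with at most one zero and `l = r = 0` works; if it is `> 0` let
`ρ₁ < ρ₂` be the two roots, `q(x) = b (x - ρ₁)(x - ρ₂)`, `l = ⌈ρ₁⌉₊`, `r = ⌈ρ₂⌉₊`, so that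
`i ∈ [l, r) ↔ ρ₁ ≤ i < ρ₂` (`Nat.ceil_le`, `Nat.lt_ceil`).
-/

namespace GG

open Finset

/-- the `i`-th point on the parabola -/
noncomputable def par (i : ℕ) : ℝ × ℝ := ((i : ℝ), (i : ℝ) ^ 2)

theorem par_gp (i j k : ℕ) (hij : i ≠ j) (hik : i ≠ k) (hjk : j ≠ k) :
    ¬ Collinear ℝ {par i, par j, par k} := by
  sorry

theorem line_interval (a b c : ℝ) (hab : a ≠ 0 ∨ b ≠ 0) :
    ∃ l r : ℕ, ∀ i j : ℕ, i ≠ j →
      (∃ z ∈ openSegment ℝ (par i) (par j), a * z.1 + b * z.2 = c) →
      ((l ≤ i ∧ i < r) ↔ ¬ (l ≤ j ∧ j < r)) := by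
  sorry

end GG
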