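import Pool.Agent.T2H45.GG.DIR

/-!
# GG package PIV (about 60 min): through every point there is a halving line

For points in general position and every point number `p` there is a line through the point `p`
and no other point with exactly `(n - 1) / 2` points strictly on its negative side and
`(n - 1) - (n - 1) / 2` points strictly on its positive side.

Proof.  By `exists_cut` (its proof: an injective linear functional) and `gp_lin` we may assume that
`X` is injective (or redo the generic choice here).  For `v ≠ p` let
`s v = (Y v - Y p) / (X v - X p)` be the slope of the line through `p` and `v`; the slopes are
distinct by general position.  Let `R` be the number of `v` with `X v > X p` and `L` the number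
with `X v < X p`, `L + R = n - 1`.  For a real number `m` that is no slope the point `v` is strictly
below the line through `p` with slope `m` iff (`X v > X p` and `s v < m`) or (`X v < X p` and
`s v > m`); let `U m` be the number of points below.  For `m` less than all slopes `U m = L`, for
`m` greater than all slopes `U m = R`, and `U` changes by exactly one when `m` passes a slope.
Put `h = (n - 1) / 2`; since `L + R = n - 1` one of `L ≤ h ≤ R`, `R ≤ h ≤ L`
holds, or (`n - 1` odd) `{L, R}` is such that `h` is still between them; so `U m = h` for some `m`
(discrete intermediate value theorem along the sorted slopes).

A way to avoid sorting: (case `L ≤ h ≤ R`; the other case is the same for `-m`, i.e. after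
`X ↦ -X`).  Let `T` be the finite set of slopes and for `τ ∈ T` let
`D τ = #{below, for slope slightly larger than τ}`
`= #{X v > X p, s v ≤ τ} + #{X v < X p, s v > τ}`.  If `L = h` take `m` less than all slopes.
Otherwise `L < h ≤ R` and `D (max T) = R ≥ h`; let `τ` be the least element of `T` with
`D τ ≥ h`; then the value just before `τ` is `< h` and differs by one from `D τ`, so `D τ = h`.
Take `m` slightly larger than `τ`.  Any other proof is fine.
-/

namespace GG

open Finset

theorem exists_pivot {n : ℕ} {X Y : Fin n → ℝ} (hgp : GP X Y) (hd : Dist X Y) (p : Fin n) :
    ∃ α β : ℝ, (α ≠ 0 ∨ β ≠ 0) ∧
      (univ.filter fun v => α * X v + β * Y v < α * X p + β * Y p).card = (n - 1) / 2 ∧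
      (univ.filter fun v => α * X p + β * Y p < α * X v + β * Y v).card =
        (n - 1) - (n - 1) / 2 := by
  sorry

end GG
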