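import Pool.Agent.T2H45.GG.BR

/-!
# GG package ST (about 40 min): the stack lemma

`A` is to the left and `B` to the right of `x = x0`; the sizes of `A` and `B` are sums of `M`
block sizes `a k ≥ 1` resp. `b k ≥ 1`.  If every line separates at most `t` adjacent pairs then
`e(A) + e(B) ≤ (M - 1) t + Σ (C(a k, 2) + C(b k, 2))` (here doubled).

Proof by induction on `M` (from 1).  `M = 1`: `ee w A A ≤ |A| (|A| - 1)` as `w ≤ 1` and
`w u u = 0`.  Step `M → M + 1` (`M ≥ 1`): apply `bridging` with `i = a M`, `j = b M` to get a line;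
let `A1`/`A2` be the points of `A` below/above it, `B1`/`B2` similarly.  Then
`ee A A = ee A1 A1 + ee A2 A2 + 2 ee A1 A2` (symmetry of `w`), the same for `B`, and
`ee A1 A2 + ee B1 B2 ≤ ee (A1 ∪ B1) (A2 ∪ B2) ≤ ee (neg ..) (pos ..) ≤ t` (`CutLe` for the line
`-m x + y = c`).  Apply the induction hypothesis to `A2`, `B2` (of sizes `Σ_{k<M} a k`,
`Σ_{k<M} b k`) and the case `M = 1` estimate to `A1`, `B1`.

General facts on `ee` (additivity over disjoint unions, monotonicity, symmetry) that are proved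
here can be used by the other packages.
-/

namespace GG

open Finset

theorem ee_comm {n : ℕ} {w : Fin n → Fin n → ℕ} (hw : IsAdj w) (S T : Finset (Fin n)) :
    ee w S T = ee w T S := by
  unfold ee
  rw [Finset.sum_comm]
  exact Finset.sum_congr rfl fun v _ => Finset.sum_congr rfl fun u _ => hw.symm u v

theorem ee_mono {n : ℕ} (w : Fin n → Fin n → ℕ) {S S' T T' : Finset (Fin n)}
    (hS : S ⊆ S') (hT : T ⊆ T') : ee w S T ≤ ee w S' T' := by
  unfold ee
  calc ∑ u ∈ S, ∑ v ∈ T, w u v ≤ ∑ u ∈ S, ∑ v ∈ T', w u v :=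
        Finset.sum_le_sum fun u _ => Finset.sum_le_sum_of_subset hT
    _ ≤ ∑ u ∈ S', ∑ v ∈ T', w u v := Finset.sum_le_sum_of_subset hS

theorem ee_union_left {n : ℕ} (w : Fin n → Fin n → ℕ) {S S' : Finset (Fin n)}
    (h : Disjoint S S') (T : Finset (Fin n)) : ee w (S ∪ S') T = ee w S T + ee w S' T := by
  unfold ee
  exact Finset.sum_union h

theorem ee_union_right {n : ℕ} (w : Fin n → Fin n → ℕ) (S : Finset (Fin n))
    {T T' : Finset (Fin n)} (h : Disjoint T T') : ee w S (T ∪ T') = ee w S T + ee w S T' := by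
  unfold ee
  rw [← Finset.sum_add_distrib]
  exact Finset.sum_congr rfl fun u _ => Finset.sum_union h

theorem ee_self_le {n : ℕ} {w : Fin n → Fin n → ℕ} (hw : IsAdj w) (S : Finset (Fin n)) :
    ee w S S ≤ S.card * (S.card - 1) := by
  sorry

theorem stack {n : ℕ} (X Y : Fin n → ℝ) (w : Fin n → Fin n → ℕ) (t : ℕ) (hgp : GP X Y)
    (hw : IsAdj w) (hc : CutLe X Y w t) (x0 : ℝ) (M : ℕ) (hM : 1 ≤ M) (a b : ℕ → ℕ)
    (ha : ∀ k < M, 1 ≤ a k) (hb : ∀ k < M, 1 ≤ b k) (A B : Finset (Fin n))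
    (hAc : A.card = ∑ k ∈ range M, a k) (hBc : B.card = ∑ k ∈ range M, b k)
    (hA : ∀ v ∈ A, X v < x0) (hB : ∀ v ∈ B, x0 < X v) :
    ee w A A + ee w B B ≤
      2 * ((M - 1) * t) + ∑ k ∈ range M, (a k * (a k - 1) + b k * (b k - 1)) := by
  sorry

end GG
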