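import Pool.Agent.T2H45.GG.Defs

/-!
# GG package SZ (about 45 min): balanced block sizes (pure arithmetic of natural numbers)

`sz n m i = (n + i) / m` for `i < m` are the sizes of the `m` most balanced blocks.
* `sum_sz` : they sum up to `n` (induction on `n`: `(n + 1 + i) / m` is the shifted sequence and
  `(n + m) / m = n / m + 1`).
* `sum_even_odd` : splitting a sum over `range (2 * M)` in even and odd indices.
* `sum_even` : the even ones (`i = 2 k`) sum up to `n / 2` and hence the odd ones to `n - n / 2`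
  (the sequence is monotone and increases by at most `1` in total, so
  `0 ≤ Σ odd - Σ even ≤ 1`).
* `bal_eq` : all sizes are `q` or `q + 1`: if `n = m q + s`, `s ≤ m`, `1 ≤ m` then
  `bal n m = m q (q - 1) + 2 s q` (`sz n m i = q + 1` iff `i ≥ m - s`).
-/

namespace GG

open Finset

theorem sum_sz (n m : ℕ) (hm : 1 ≤ m) : ∑ i ∈ range m, sz n m i = n := by
  sorry

theorem sum_even_odd (M : ℕ) (g : ℕ → ℕ) :
    ∑ i ∈ range (2 * M), g i = ∑ k ∈ range M, (g (2 * k) + g (2 * k + 1)) := by
  sorry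

theorem sum_even (n M : ℕ) (hM : 1 ≤ M) : ∑ k ∈ range M, sz n (2 * M) (2 * k) = n / 2 := by
  sorry

theorem sum_odd (n M : ℕ) (hM : 1 ≤ M) :
    ∑ k ∈ range M, sz n (2 * M) (2 * k + 1) = n - n / 2 := by
  sorry

theorem one_le_sz (n m i : ℕ) (hm : 1 ≤ m) (h : m ≤ n) : 1 ≤ sz n m i := by
  sorry

theorem bal_eq (m q s : ℕ) (hm : 1 ≤ m) (hs : s ≤ m) :
    bal (m * q + s) m = m * (q * (q - 1)) + 2 * (s * q) := by
  sorry

end GG
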