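import Pool.Agent.T2H45.GG.ST
import Pool.Agent.T2H45.GG.SZ
import Pool.Agent.T2H45.GG.DIR
import Pool.Agent.T2H45.GG.PIV

/-!
# GG package UP (about 50 min): the two upper bounds

* `upper_plain` : for `1 ≤ M`, `2 M ≤ n`: `2 |E| ≤ 2 M t + bal n (2 M)`.
  Proof: `exists_cut` with `h = n / 2`, change coordinates (`gp_lin`, `cutLe_lin`), so that
  `A = {X' < x0}` has `n / 2` points and `B = {X' > x0}` the other `n - n / 2`.  `stack` with
  `a k = sz n (2 M) (2 k)`, `b k = sz n (2 M) (2 k + 1)` (`sum_even`, `sum_odd`, `one_le_sz`),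
  `ee univ univ = ee A A + ee B B + 2 ee A B`, `ee A B ≤ t` by `CutLe` with `(1, 0, x0)`, and
  `sum_even_odd`.
* `upper_pivot` : for `1 ≤ M`, `2 M ≤ n - 1` and every `p`:
  `2 |E| ≤ 2 M t + bal (n - 1) (2 M) + deg p`.
  Proof: `exists_pivot`, change coordinates, `A = {X' < X' p}`, `B = {X' > X' p}`, `stack` with
  the sizes `sz (n - 1) (2 M) _`.  With `d_A = ee {p} A`, `d_B = ee {p} B`:
  `ee univ univ = ee A A + ee B B + 2 ee A B + 2 d_A + 2 d_B` and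
  `ee A B + d_B ≤ t` (line `X' = X' p + ε`), `ee A B + d_A ≤ t` (line `X' = X' p - ε`).
  Add: `2 ee A B + d_A + d_B ≤ 2 t`; `deg p = Σ_v w p v = d_A + d_B`.
* `upper_avg` : sum of `upper_pivot` over all `p` : `(n - 1) 2|E| ≤ n (2 M t + bal (n-1) (2M))`.
-/

namespace GG

open Finset

theorem upper_plain {n : ℕ} (X Y : Fin n → ℝ) (w : Fin n → Fin n → ℕ) (t : ℕ) (hgp : GP X Y)
    (hd : Dist X Y) (hw : IsAdj w) (hc : CutLe X Y w t) (M : ℕ) (hM : 1 ≤ M) (hn : 2 * M ≤ n) :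
    ee w univ univ ≤ 2 * (M * t) + bal n (2 * M) := by
  sorry

theorem upper_pivot {n : ℕ} (X Y : Fin n → ℝ) (w : Fin n → Fin n → ℕ) (t : ℕ) (hgp : GP X Y)
    (hd : Dist X Y) (hw : IsAdj w) (hc : CutLe X Y w t) (M : ℕ) (hM : 1 ≤ M)
    (hn : 2 * M ≤ n - 1) (p : Fin n) :
    ee w univ univ ≤ 2 * (M * t) + bal (n - 1) (2 * M) + ∑ v, w p v := by
  sorry

theorem upper_avg {n : ℕ} (X Y : Fin n → ℝ) (w : Fin n → Fin n → ℕ) (t : ℕ) (hgp : GP X Y)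
    (hd : Dist X Y) (hw : IsAdj w) (hc : CutLe X Y w t) (M : ℕ) (hM : 1 ≤ M)
    (hn : 2 * M ≤ n - 1) :
    (n - 1) * ee w univ univ ≤ n * (2 * (M * t) + bal (n - 1) (2 * M)) := by
  sorry

end GG
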